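import Pool.Agent.K1H93.PX.Chr

/-!
# Blocks, the exceptional characters, and arbitrary sets
-/

set_option autoImplicit false

namespace Pool.Agent.K1H93.PX

open Finset Matrix Pool.Agent.K1H93.PG
open scoped Pointwise

variable {p : ℕ} [hp : Fact p.Prime]

/-- the form on the blocks -/
noncomputable def bf (P : Finset (ZMod p)) (χ : DirichletCharacter ℂ p) (x : ZMod p) (f g : ZMod p → ℂ) : ℂ :=
  ∑ u ∈ P, ∑ v ∈ P, f u * g v * χ (x + (u + v))

theorem emb {M : Type} [AddCommMonoid M] (P : Finset (ZMod p)) {h : ZMod p} (hh : h ∈ P) (F : ZMod p → M) :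
    ∑ a : {x // x ∈ P + P}, (if a.1 - h ∈ P then F a.1 else 0) = ∑ u ∈ P, F (h + u) := by
  rw [Finset.univ_eq_attach, Finset.sum_attach (P + P) (fun a => if a - h ∈ P then F a else 0), ← sum_filter]
  symm
  apply sum_nbij' (fun u => h + u) (fun a => a - h)
  · intro u hu
    rw [mem_filter]
    exact ⟨add_mem_add hh hu, by rw [add_sub_cancel_left]; exact hu⟩
  · intro a ha
    exact (mem_filter.1 ha).2
  · intro u _
    simp
  · intro a _
    simp
  · intro u _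
    rfl

/-- the shifted coefficients -/
noncomputable def sf (P : Finset (ZMod p)) (h : ZMod p) (f : ZMod p → ℂ) (a : {x // x ∈ P + P}) : ℂ :=
  if a.1 - h ∈ P then f (a.1 - h) else 0

theorem sf_norm (P : Finset (ZMod p)) {h : ZMod p} (hh : h ∈ P) (f : ZMod p → ℂ) :
    ∑ a, ‖sf P h f a‖ ^ 2 = ∑ i ∈ P, ‖f i‖ ^ 2 := by
  have e : ∀ a : {x // x ∈ P + P}, ‖sf P h f a‖ ^ 2 =
      if a.1 - h ∈ P then (fun n => ‖f (n - h)‖ ^ 2) a.1 else 0 := by
    intro a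
    unfold sf
    split_ifs <;> simp
  rw [sum_congr rfl fun a _ => e a]
  refine (emb P hh (fun n => ‖f (n - h)‖ ^ 2)).trans ?_
  refine sum_congr rfl fun i _ => ?_
  simp

theorem sf_form (P : Finset (ZMod p)) {h k : ZMod p} (hh : h ∈ P) (hk : k ∈ P) (χ : DirichletCharacter ℂ p)
    (x : ZMod p) (f g : ZMod p → ℂ) :
    ∑ a, ∑ b, sf P h f a * sf P k g b * χ (x - k - h + (a.1 + b.1)) = bf P χ x f g := by
  have e : ∀ a b : {x // x ∈ P + P}, sf P h f a * sf P k g b * χ (x - k - h + (a.1 + b.1)) =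
      if a.1 - h ∈ P then (fun n => if b.1 - k ∈ P then (fun m : ZMod p =>
        f (n - h) * g (m - k) * χ (x - k - h + (n + m))) b.1 else 0) a.1 else 0 := by
    intro a b
    unfold sf
    split_ifs <;> simp
  have e2 : ∀ a : {x // x ∈ P + P}, ∑ b, sf P h f a * sf P k g b * χ (x - k - h + (a.1 + b.1)) =
      if a.1 - h ∈ P then (fun n : ZMod p => ∑ j ∈ P,
        f (n - h) * g (k + j - k) * χ (x - k - h + (n + (k + j)))) a.1 else 0 := by
    intro a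
    rw [sum_congr rfl fun b _ => e a b]
    by_cases ha : a.1 - h ∈ P
    · simp only [if_pos ha]
      exact emb P hk (fun m : ZMod p => f (a.1 - h) * g (m - k) * χ (x - k - h + (a.1 + m)))
    · simp only [if_neg ha, sum_const_zero]
  rw [sum_congr rfl fun a _ => e2 a]
  refine (emb P hh (fun n : ZMod p => ∑ j ∈ P,
    f (n - h) * g (k + j - k) * χ (x - k - h + (n + (k + j))))).trans ?_
  unfold bf
  refine sum_congr rfl fun i _ => sum_congr rfl fun j _ => ?_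
  have e3 : x - k - h + ((h + i) + (k + j)) = x + (i + j) := by ring
  rw [e3]
  simp

/-- the exceptional characters -/
def Exc (P : Finset (ZMod p)) (Λ : ℝ) (χ : DirichletCharacter ℂ p) : Prop :=
  ∃ (x : ZMod p) (f g : ZMod p → ℂ), Λ * (Real.sqrt (∑ i ∈ P, ‖f i‖ ^ 2) *
    Real.sqrt (∑ j ∈ P, ‖g j‖ ^ 2)) < ‖bf P χ x f g‖

theorem exc_le {P : Finset (ZMod p)} (s : ℕ) {Λ : ℝ} (hΛ : 0 ≤ Λ) {χ : DirichletCharacter ℂ p}
    (h : Exc P Λ χ) : P.card * Λ ^ (2 * (s + 1)) ≤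
      ∑ x, TT (fun a : {x // x ∈ P + P} => a.1) s χ x := by
  classical
  rcases P.eq_empty_or_nonempty with hP | ⟨k, hk⟩
  · rw [hP]
    simp only [card_empty, Nat.cast_zero, zero_mul]
    exact sum_nonneg fun x _ => norm_nonneg _
  obtain ⟨x, f, g, h⟩ := h
  have h1 : ∀ u ∈ P, Λ ^ (2 * (s + 1)) ≤ TT (fun a : {x // x ∈ P + P} => a.1) s χ (x - k - u) := by
    intro u hu
    apply large _ s χ _ (sf P u f) (sf P k g) Λ hΛ
    rw [sf_norm P hu, sf_norm P hk, sf_form P hu hk]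
    exact h
  calc P.card * Λ ^ (2 * (s + 1)) = ∑ u ∈ P, Λ ^ (2 * (s + 1)) := by
        rw [sum_const, nsmul_eq_mul]
    _ ≤ ∑ u ∈ P, TT (fun a : {x // x ∈ P + P} => a.1) s χ (x - k - u) := sum_le_sum h1
    _ = ∑ y ∈ P.image (fun u => x - k - u), TT (fun a : {x // x ∈ P + P} => a.1) s χ y := by
        rw [sum_image]
        intro a _ b _ hab
        exact sub_right_injective hab
    _ ≤ _ := sum_le_sum_of_subset_of_nonneg (subset_univ _) fun y _ _ => norm_nonneg _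

theorem card4 (P : Finset (ZMod p)) (hP : P.Nonempty) {κ : ℝ} (hκ : ((P + P).card : ℝ) ≤ κ * P.card) :
    (((P + P) + (P + P)).card : ℝ) ≤ κ ^ 4 * P.card := by
  have h := Finset.pluennecke_ruzsa_inequality_nsmul_add hP P 4
  have e : (P + P) + (P + P) = 4 • P := by
    rw [show (4 : ℕ) = 2 + 2 from rfl, add_nsmul, two_nsmul]
  have hc : (0 : ℝ) < P.card := by exact_mod_cast hP.card_pos
  rw [e]
  have h2 : (((4 • P).card : ℚ≥0) : ℝ) ≤ ((((P + P).card : ℚ≥0) / (P.card : ℚ≥0)) ^ 4 * (P.card : ℚ≥0) : ℚ≥0) := by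
    exact_mod_cast h
  have h3 : ((4 • P).card : ℝ) ≤ (((P + P).card : ℝ) / P.card) ^ 4 * P.card := by
    push_cast at h2
    exact h2
  refine h3.trans ?_
  have h4 : ((P + P).card : ℝ) / P.card ≤ κ := by
    rw [div_le_iff₀ hc]
    exact hκ
  have h5 : (((P + P).card : ℝ) / P.card) ^ 4 ≤ κ ^ 4 := pow_le_pow_left₀ (by positivity) h4 4
  exact mul_le_mul_of_nonneg_right h5 hc.le

/-- the number of the exceptional characters -/
theorem card_exc (s : ℕ) {P : Finset (ZMod p)} (hP : P.Nonempty) {κ : ℝ} (hκ : ((P + P).card : ℝ) ≤ κ * P.card)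
    (hps : p ≤ P.card ^ s) {K : ℝ} (hK : 0 < K)
    (E : Finset (DirichletCharacter ℂ p)) (hE : ∀ χ ∈ E, Exc P (P.card / K) χ) :
    (E.card : ℝ) ≤ ((s + 1) ^ (s + 1) + (s + 1)) * κ ^ (4 * s + 5) * K ^ (2 * (s + 1)) * p / P.card := by
  classical
  have hN' : (0 : ℝ) < P.card := by exact_mod_cast hP.card_pos
  have hκ1 : 1 ≤ κ := by
    by_contra hc
    push Not at hc
    have h1 : (P.card : ℝ) ≤ (P + P).card := by
      exact_mod_cast Finset.card_le_card_add_right hP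
    nlinarith
  have hκ0 : 0 ≤ κ := by linarith
  set N : ℝ := (P.card : ℝ) with hNdef
  have hΛ : (0 : ℝ) ≤ N / K := by positivity
  set T : Finset (ZMod p) := (P + P) + (P + P) with hT
  have hTc : (T.card : ℝ) ≤ κ ^ 4 * N := card4 P hP hκ
  have h1 := sum_TT_le (fun a : {x // x ∈ P + P} => a.1) Subtype.val_injective T
    (fun a b => add_mem_add a.2 b.2) s
  have h2 : (E.card : ℝ) * (N * (N / K) ^ (2 * (s + 1))) ≤
      ∑ χ : DirichletCharacter ℂ p, ∑ x, TT (fun a : {x // x ∈ P + P} => a.1) s χ x := by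
    calc (E.card : ℝ) * (N * (N / K) ^ (2 * (s + 1))) = ∑ χ ∈ E, (N * (N / K) ^ (2 * (s + 1)) : ℝ) := by
          rw [sum_const, nsmul_eq_mul]
      _ ≤ ∑ χ ∈ E, ∑ x, TT (fun a : {x // x ∈ P + P} => a.1) s χ x :=
          sum_le_sum fun χ hχ => exc_le s hΛ (hE χ hχ)
      _ ≤ _ := sum_le_sum_of_subset_of_nonneg (subset_univ _) fun χ _ _ => sum_nonneg fun x _ => norm_nonneg _
  have hfc : (Fintype.card {x // x ∈ P + P} : ℝ) = (P + P).card := by
    rw [Fintype.card_coe]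
  rw [hfc] at h1
  have hps' : (p : ℝ) ≤ N ^ s := by rw [hNdef]; exact_mod_cast hps
  have hp0 : (0 : ℝ) ≤ p := Nat.cast_nonneg _
  have h3 : (p : ℝ) * (p * ((s + 1 : ℝ) ^ (s + 1) * (((P + P).card : ℝ) * (T.card : ℝ) ^ (s + 1))) +
        (s + 1) * ((P + P).card : ℝ) ^ (2 * (s + 1))) ≤
      p * (((s + 1) ^ (s + 1) + (s + 1)) * κ ^ (4 * s + 5) * N ^ (2 * (s + 1))) := by
    refine mul_le_mul_of_nonneg_left ?_ hp0
    have h4 : (T.card : ℝ) ^ (s + 1) ≤ (κ ^ 4 * N) ^ (s + 1) := pow_le_pow_left₀ (Nat.cast_nonneg _) hTc _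
    have h5 : (p : ℝ) * ((s + 1 : ℝ) ^ (s + 1) * (((P + P).card : ℝ) * (T.card : ℝ) ^ (s + 1))) ≤
        N ^ s * ((s + 1 : ℝ) ^ (s + 1) * ((κ * N) * (κ ^ 4 * N) ^ (s + 1))) := by
      gcongr
    have h6 : N ^ s * ((s + 1 : ℝ) ^ (s + 1) * ((κ * N) * (κ ^ 4 * N) ^ (s + 1))) =
        (s + 1) ^ (s + 1) * κ ^ (4 * s + 5) * N ^ (2 * (s + 1)) := by
      rw [mul_pow]
      ring
    have h7 : ((P + P).card : ℝ) ^ (2 * (s + 1)) ≤ κ ^ (4 * s + 5) * N ^ (2 * (s + 1)) := by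
      calc ((P + P).card : ℝ) ^ (2 * (s + 1)) ≤ (κ * N) ^ (2 * (s + 1)) :=
            pow_le_pow_left₀ (Nat.cast_nonneg _) hκ _
        _ = κ ^ (2 * (s + 1)) * N ^ (2 * (s + 1)) := mul_pow _ _ _
        _ ≤ κ ^ (4 * s + 5) * N ^ (2 * (s + 1)) := by
            refine mul_le_mul_of_nonneg_right (pow_le_pow_right₀ hκ1 (by omega)) (by positivity)
    have h8 : (s + 1 : ℝ) * ((P + P).card : ℝ) ^ (2 * (s + 1)) ≤
        (s + 1) * (κ ^ (4 * s + 5) * N ^ (2 * (s + 1))) :=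
      mul_le_mul_of_nonneg_left h7 (by positivity)
    have h9 : ((s + 1) ^ (s + 1) + (s + 1)) * κ ^ (4 * s + 5) * N ^ (2 * (s + 1)) =
        (s + 1) ^ (s + 1) * κ ^ (4 * s + 5) * N ^ (2 * (s + 1)) +
          (s + 1) * (κ ^ (4 * s + 5) * N ^ (2 * (s + 1))) := by ring
    rw [h9]
    linarith [h5, h6, h8]
  have h8 := h2.trans (h1.trans h3)
  have h9 : (N / K : ℝ) ^ (2 * (s + 1)) = N ^ (2 * (s + 1)) / K ^ (2 * (s + 1)) := div_pow _ _ _
  rw [le_div_iff₀ hN']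
  have hNp : (0 : ℝ) < N ^ (2 * (s + 1)) := by positivity
  have hKp : (0 : ℝ) < K ^ (2 * (s + 1)) := by positivity
  rw [h9] at h8
  have h10 : (E.card : ℝ) * N * N ^ (2 * (s + 1)) ≤
      ((s + 1) ^ (s + 1) + (s + 1)) * κ ^ (4 * s + 5) * K ^ (2 * (s + 1)) * p * N ^ (2 * (s + 1)) := by
    have h11 := mul_le_mul_of_nonneg_right h8 hKp.le
    have h12 : (E.card : ℝ) * (N * (N ^ (2 * (s + 1)) / K ^ (2 * (s + 1)))) * K ^ (2 * (s + 1)) =
        (E.card : ℝ) * N * N ^ (2 * (s + 1)) := by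
      field_simp
    rw [h12] at h11
    refine h11.trans (le_of_eq ?_)
    ring
  exact le_of_mul_le_mul_right h10 hNp

/-- the dilate of `P` -/
def Pg (P : Finset (ZMod p)) (z : ZMod p) : Finset (ZMod p) := P.image fun u => u * z

theorem sum_blocks {P : Finset (ZMod p)} {Λ : ℝ} {χ : DirichletCharacter ℂ p} (h : ¬ Exc P Λ χ) {z : ZMod p}
    (hz : z ≠ 0) (y y' : ZMod p) (f g : ZMod p → ℂ) :
    ‖∑ i ∈ P, ∑ j ∈ P, f (y - i * z) * g (y' - j * z) * χ ((y - i * z) + (y' - j * z))‖ ≤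
      Λ * (Real.sqrt (∑ i ∈ P, ‖f (y - i * z)‖ ^ 2) * Real.sqrt (∑ j ∈ P, ‖g (y' - j * z)‖ ^ 2)) := by
  unfold Exc at h
  push Not at h
  refine le_trans ?_ (h (-(y + y') / z) (fun i => f (y - i * z)) (fun j => g (y' - j * z)))
  have e : ∑ i ∈ P, ∑ j ∈ P, f (y - i * z) * g (y' - j * z) * χ ((y - i * z) + (y' - j * z)) =
      χ (-z) * bf P χ (-(y + y') / z) (fun i => f (y - i * z)) (fun j => g (y' - j * z)) := by
    unfold bf
    rw [mul_sum]
    refine sum_congr rfl fun i _ => ?_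
    rw [mul_sum]
    refine sum_congr rfl fun j _ => ?_
    have e2 : (y - i * z) + (y' - j * z) = (-z) * (-(y + y') / z + (i + j)) := by
      field_simp
      ring
    rw [e2, map_mul]
    ring
  rw [e, norm_mul]
  exact mul_le_of_le_one_left (norm_nonneg _) (DirichletCharacter.norm_le_one _ _)

/-- the sum of the norms of the pieces -/
theorem sum_norm_le (P : Finset (ZMod p)) (z : ZMod p) (A : Finset (ZMod p)) (f : ZMod p → ℂ) :
    ∑ y ∈ A + Pg P z, Real.sqrt (∑ i ∈ P, ‖(if y - i * z ∈ A then f (y - i * z) else 0)‖ ^ 2) ≤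
      Real.sqrt (((A + Pg P z).card : ℝ) * (P.card * ∑ a ∈ A, ‖f a‖ ^ 2)) := by
  apply Real.le_sqrt_of_sq_le
  refine (sq_sum_le_card_mul_sum_sq).trans ?_
  refine mul_le_mul_of_nonneg_left ?_ (Nat.cast_nonneg _)
  calc ∑ y ∈ A + Pg P z, Real.sqrt (∑ i ∈ P, ‖(if y - i * z ∈ A then f (y - i * z) else 0)‖ ^ 2) ^ 2
      = ∑ y ∈ A + Pg P z, ∑ i ∈ P, ‖(if y - i * z ∈ A then f (y - i * z) else 0)‖ ^ 2 :=
        sum_congr rfl fun y _ => Real.sq_sqrt (sum_nonneg fun _ _ => by positivity)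
    _ ≤ ∑ y, ∑ i ∈ P, ‖(if y - i * z ∈ A then f (y - i * z) else 0)‖ ^ 2 :=
        sum_le_sum_of_subset_of_nonneg (subset_univ _) fun y _ _ => sum_nonneg fun _ _ => by positivity
    _ = ∑ i ∈ P, ∑ y, ‖(if y - i * z ∈ A then f (y - i * z) else 0)‖ ^ 2 := sum_comm
    _ = ∑ i ∈ P, ∑ a ∈ A, ‖f a‖ ^ 2 := by
        refine sum_congr rfl fun i _ => ?_
        refine (Equiv.sum_comp (Equiv.subRight (i * z)) fun a => ‖(if a ∈ A then f a else 0)‖ ^ 2).trans ?_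
        have e : ∀ a : ZMod p, ‖(if a ∈ A then f a else 0)‖ ^ 2 = if a ∈ A then ‖f a‖ ^ 2 else 0 := by
          intro a
          split_ifs <;> simp
        rw [sum_congr rfl fun a _ => e a, ← sum_filter, filter_univ_mem]
    _ = _ := by rw [sum_const, nsmul_eq_mul]

/-- **Arbitrary sets.** -/
theorem all_sets {P : Finset (ZMod p)} (hP : P.Nonempty) {K : ℝ} (hK : 0 < K) {χ : DirichletCharacter ℂ p} (h : ¬ Exc P (P.card / K) χ)
    {z : ZMod p} (hz : z ≠ 0) (A B : Finset (ZMod p)) (f g : ZMod p → ℂ) :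
    ‖∑ a ∈ A, ∑ b ∈ B, f a * g b * χ (a + b)‖ ≤
      K⁻¹ * (Real.sqrt (((A + Pg P z).card : ℝ) * ∑ a ∈ A, ‖f a‖ ^ 2) *
        Real.sqrt (((B + Pg P z).card : ℝ) * ∑ b ∈ B, ‖g b‖ ^ 2)) := by
  classical
  have hN' : (0 : ℝ) < P.card := by exact_mod_cast hP.card_pos
  have hΛ : (0 : ℝ) ≤ P.card / K := by positivity
  set fA : ZMod p → ℂ := fun a => if a ∈ A then f a else 0 with hfA
  set gB : ZMod p → ℂ := fun b => if b ∈ B then g b else 0 with hgB
  have e1 : ∑ a, ∑ b, fA a * gB b * χ (a + b) = ∑ a ∈ A, ∑ b ∈ B, f a * g b * χ (a + b) := by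
    have e : ∀ a b : ZMod p, fA a * gB b * χ (a + b) =
        if a ∈ A then (if b ∈ B then f a * g b * χ (a + b) else 0) else 0 := by
      intro a b
      simp only [hfA, hgB]
      split_ifs <;> simp
    simp only [e]
    have e' : ∀ a : ZMod p, ∑ b, (if a ∈ A then (if b ∈ B then f a * g b * χ (a + b) else 0) else 0) =
        if a ∈ A then ∑ b ∈ B, f a * g b * χ (a + b) else 0 := by
      intro a
      split_ifs with ha
      · rw [← sum_filter, filter_univ_mem]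
      · exact sum_const_zero
    simp only [e']
    rw [← sum_filter, filter_univ_mem]
  have e2 : ∑ y, ∑ y', ∑ i ∈ P, ∑ j ∈ P,
      fA (y - i * z) * gB (y' - j * z) * χ ((y - i * z) + (y' - j * z)) =
      (P.card : ℂ) ^ 2 * ∑ a, ∑ b, fA a * gB b * χ (a + b) := by
    calc ∑ y, ∑ y', ∑ i ∈ P, ∑ j ∈ P,
          fA (y - i * z) * gB (y' - j * z) * χ ((y - i * z) + (y' - j * z))
        = ∑ i ∈ P, ∑ j ∈ P, ∑ y, ∑ y',
          fA (y - i * z) * gB (y' - j * z) * χ ((y - i * z) + (y' - j * z)) := by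
          rw [sum_congr rfl fun y _ => sum_comm (s := (univ : Finset (ZMod p))) (t := P)]
          rw [sum_comm]
          refine sum_congr rfl fun i _ => ?_
          rw [sum_congr rfl fun y _ => sum_comm (s := (univ : Finset (ZMod p))) (t := P)]
          rw [sum_comm]
      _ = ∑ i ∈ P, ∑ j ∈ P, ∑ a, ∑ b, fA a * gB b * χ (a + b) := by
          refine sum_congr rfl fun i _ => sum_congr rfl fun j _ => ?_
          rw [← Equiv.sum_comp (Equiv.subRight (i * z)) fun a => ∑ b, fA a * gB b * χ (a + b)]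
          refine sum_congr rfl fun y _ => ?_
          rw [← Equiv.sum_comp (Equiv.subRight (j * z))
            fun b => fA ((Equiv.subRight (i * z)) y) * gB b * χ ((Equiv.subRight (i * z)) y + b)]
          rfl
      _ = _ := by
          rw [sum_const, sum_const, nsmul_eq_mul, nsmul_eq_mul]
          ring
  have hz1 : ∀ y : ZMod p, y ∉ A + Pg P z → ∀ i ∈ P, fA (y - i * z) = 0 := by
    intro y hy i hi
    simp only [hfA]
    rw [if_neg]
    intro h3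
    apply hy
    rw [mem_add]
    exact ⟨_, h3, _, mem_image.2 ⟨i, hi, rfl⟩, sub_add_cancel _ _⟩
  have hz2 : ∀ y : ZMod p, y ∉ B + Pg P z → ∀ i ∈ P, gB (y - i * z) = 0 := by
    intro y hy i hi
    simp only [hgB]
    rw [if_neg]
    intro h3
    apply hy
    rw [mem_add]
    exact ⟨_, h3, _, mem_image.2 ⟨i, hi, rfl⟩, sub_add_cancel _ _⟩
  have e3 : ∑ y, ∑ y', ∑ i ∈ P, ∑ j ∈ P,
      fA (y - i * z) * gB (y' - j * z) * χ ((y - i * z) + (y' - j * z)) =
      ∑ y ∈ A + Pg P z, ∑ y' ∈ B + Pg P z, ∑ i ∈ P, ∑ j ∈ P,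
      fA (y - i * z) * gB (y' - j * z) * χ ((y - i * z) + (y' - j * z)) := by
    symm
    refine (sum_congr rfl fun y _ => sum_subset (subset_univ _) fun y' _ hy' => ?_).trans
      (sum_subset (subset_univ _) fun y _ hy => ?_)
    · refine sum_eq_zero fun i _ => sum_eq_zero fun j hj => ?_
      rw [hz2 y' hy' j hj, mul_zero, zero_mul]
    · refine sum_eq_zero fun y' _ => sum_eq_zero fun i hi => sum_eq_zero fun j _ => ?_
      rw [hz1 y hy i hi, zero_mul, zero_mul]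
  have e4 : (P.card : ℝ) ^ 2 * ‖∑ a ∈ A, ∑ b ∈ B, f a * g b * χ (a + b)‖ ≤
      (P.card / K) * (Real.sqrt (((A + Pg P z).card : ℝ) * (P.card * ∑ a ∈ A, ‖f a‖ ^ 2)) *
        Real.sqrt (((B + Pg P z).card : ℝ) * (P.card * ∑ b ∈ B, ‖g b‖ ^ 2))) := by
    have e5 : (P.card : ℝ) ^ 2 * ‖∑ a ∈ A, ∑ b ∈ B, f a * g b * χ (a + b)‖ =
        ‖∑ y ∈ A + Pg P z, ∑ y' ∈ B + Pg P z, ∑ i ∈ P, ∑ j ∈ P,
      fA (y - i * z) * gB (y' - j * z) * χ ((y - i * z) + (y' - j * z))‖ := by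
      rw [← e3, e2, e1, norm_mul]
      simp
    rw [e5]
    refine (norm_sum_le _ _).trans ?_
    refine (sum_le_sum fun y _ => (norm_sum_le _ _).trans (sum_le_sum fun y' _ =>
      sum_blocks h hz y y' fA gB)).trans ?_
    have e6 : ∑ y ∈ A + Pg P z, ∑ y' ∈ B + Pg P z, (P.card / K : ℝ) *
        (Real.sqrt (∑ i ∈ P, ‖fA (y - i * z)‖ ^ 2) * Real.sqrt (∑ j ∈ P, ‖gB (y' - j * z)‖ ^ 2)) =
        (P.card / K : ℝ) * ((∑ y ∈ A + Pg P z, Real.sqrt (∑ i ∈ P, ‖fA (y - i * z)‖ ^ 2)) *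
          ∑ y' ∈ B + Pg P z, Real.sqrt (∑ j ∈ P, ‖gB (y' - j * z)‖ ^ 2)) := by
      rw [sum_mul_sum, mul_sum]
      exact sum_congr rfl fun y _ => by rw [mul_sum]
    rw [e6]
    refine mul_le_mul_of_nonneg_left ?_ hΛ
    exact mul_le_mul (sum_norm_le P z A f) (sum_norm_le P z B g) (sum_nonneg fun _ _ => Real.sqrt_nonneg _)
      (Real.sqrt_nonneg _)
  have e7 : Real.sqrt (((A + Pg P z).card : ℝ) * (P.card * ∑ a ∈ A, ‖f a‖ ^ 2)) *
        Real.sqrt (((B + Pg P z).card : ℝ) * (P.card * ∑ b ∈ B, ‖g b‖ ^ 2)) =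
      P.card * (Real.sqrt (((A + Pg P z).card : ℝ) * ∑ a ∈ A, ‖f a‖ ^ 2) *
        Real.sqrt (((B + Pg P z).card : ℝ) * ∑ b ∈ B, ‖g b‖ ^ 2)) := by
    have h1 : ((A + Pg P z).card : ℝ) * (P.card * ∑ a ∈ A, ‖f a‖ ^ 2) =
        P.card * (((A + Pg P z).card : ℝ) * ∑ a ∈ A, ‖f a‖ ^ 2) := by ring
    have h2 : ((B + Pg P z).card : ℝ) * (P.card * ∑ b ∈ B, ‖g b‖ ^ 2) =
        P.card * (((B + Pg P z).card : ℝ) * ∑ b ∈ B, ‖g b‖ ^ 2) := by ring
    rw [h1, h2, Real.sqrt_mul hN'.le, Real.sqrt_mul hN'.le]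
    have h3 := Real.mul_self_sqrt hN'.le
    linear_combination (Real.sqrt (((A + Pg P z).card : ℝ) * ∑ a ∈ A, ‖f a‖ ^ 2) *
        Real.sqrt (((B + Pg P z).card : ℝ) * ∑ b ∈ B, ‖g b‖ ^ 2)) * h3
  rw [e7] at e4
  have h4 : (0 : ℝ) < (P.card : ℝ) ^ 2 := by positivity
  refine le_of_mul_le_mul_left (e4.trans (le_of_eq ?_)) h4
  field_simp

end Pool.Agent.K1H93.PX
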