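import Pool.Agent.K1H93.PX.Blk

/-!
# The theorem for all sets and almost all characters
-/

set_option autoImplicit false

namespace Pool.Agent.K1H93.PX

open Finset
open scoped Pointwise

theorem part1 (s p : ℕ) (hp : p.Prime) (P : Finset (ZMod p)) (hP : P.Nonempty) (κ K : ℝ)
    (hκ : ((P + P).card : ℝ) ≤ κ * P.card) (hps : p ≤ P.card ^ s) (hK : 0 < K) :
    ∃ E : Finset (DirichletCharacter ℂ p),
      (E.card : ℝ) ≤ ((s + 1) ^ (s + 1) + (s + 1)) * κ ^ (4 * s + 5) * K ^ (2 * (s + 1)) * p / P.card ∧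
      ∀ χ ∉ E, ∀ z : ZMod p, z ≠ 0 → ∀ (A B : Finset (ZMod p)) (f g : ZMod p → ℂ),
        ‖∑ a ∈ A, ∑ b ∈ B, f a * g b * χ (a + b)‖ ≤
          K⁻¹ * (Real.sqrt (((A + P.image fun u => u * z).card : ℝ) * ∑ a ∈ A, ‖f a‖ ^ 2) *
            Real.sqrt (((B + P.image fun u => u * z).card : ℝ) * ∑ b ∈ B, ‖g b‖ ^ 2)) := by
  classical
  have : Fact p.Prime := ⟨hp⟩
  refine ⟨univ.filter fun χ => Exc P (P.card / K) χ, ?_, ?_⟩
  · exact card_exc s hP hκ hps hK _ fun χ hχ => (mem_filter.1 hχ).2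
  · intro χ hχ z hz A B f g
    have h : ¬ Exc P (P.card / K) χ := fun h => hχ (mem_filter.2 ⟨mem_univ _, h⟩)
    exact all_sets hP hK h hz A B f g

theorem part2 (ε η : ℝ) (hε : 0 < ε) (hε1 : ε ≤ 1) (hη : 0 < η) : ∃ τ : ℝ, 0 < τ ∧ ∃ p₀ : ℕ, ∀ p : ℕ, p.Prime → p₀ ≤ p →
    ∃ E : Finset (DirichletCharacter ℂ p), (E.card : ℝ) ≤ (p : ℝ) ^ (1 - ε + η) ∧
      ∀ χ ∉ E, ∀ z : ZMod p, z ≠ 0 → ∀ N : ℕ, (p : ℝ) ^ ε ≤ N → ∀ A B : Finset (ZMod p),
        ((A + (range N).image fun i : ℕ => (i : ZMod p) * z).card : ℝ) ≤ (p : ℝ) ^ τ * A.card →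
        ((B + (range N).image fun i : ℕ => (i : ZMod p) * z).card : ℝ) ≤ (p : ℝ) ^ τ * B.card →
          ‖∑ a ∈ A, ∑ b ∈ B, χ (a + b)‖ ≤ (p : ℝ) ^ (-τ) * (A.card * B.card) := by
  classical
  set s : ℕ := ⌈1 / ε⌉₊ with hs
  have hs1 : 1 ≤ ε * s := by
    have h := Nat.le_ceil (1 / ε)
    rw [← hs] at h
    calc (1 : ℝ) = ε * (1 / ε) := by field_simp
      _ ≤ ε * s := mul_le_mul_of_nonneg_left h hε.le
  set τ : ℝ := η / (8 * (s + 1)) with hτ
  have hτ0 : 0 < τ := by positivity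
  set C : ℝ := ((s + 1 : ℝ) ^ (s + 1) + (s + 1)) * 2 ^ (4 * s + 5) with hC
  have hC0 : 0 < C := by positivity
  refine ⟨τ, hτ0, ⌈C ^ (2 / η)⌉₊ + 2, fun p hp hp0 => ?_⟩
  have : Fact p.Prime := ⟨hp⟩
  have hp1 : (1 : ℝ) ≤ p := by exact_mod_cast hp.one_lt.le
  have hpp : (0 : ℝ) < p := by linarith
  have hpC : C ≤ (p : ℝ) ^ (η / 2) := by
    have h1 : C ^ (2 / η) ≤ p := by
      refine (Nat.le_ceil _).trans ?_
      exact_mod_cast (by omega : ⌈C ^ (2 / η)⌉₊ ≤ p)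
    have h2 := Real.rpow_le_rpow (by positivity) h1 (by positivity : (0 : ℝ) ≤ η / 2)
    rw [← Real.rpow_mul hC0.le] at h2
    have h3 : 2 / η * (η / 2) = 1 := by field_simp
    rwa [h3, Real.rpow_one] at h2
  set N0 : ℕ := ⌈(p : ℝ) ^ ε⌉₊ with hN0
  have hN0l : (p : ℝ) ^ ε ≤ N0 := Nat.le_ceil _
  have hN0p : N0 ≤ p := by
    rw [hN0, Nat.ceil_le]
    calc (p : ℝ) ^ ε ≤ (p : ℝ) ^ (1 : ℝ) := Real.rpow_le_rpow_of_exponent_le hp1 hε1
      _ = p := Real.rpow_one _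
  have hN00 : 0 < N0 := Nat.ceil_pos.2 (by positivity)
  set P : Finset (ZMod p) := (range N0).image fun i : ℕ => (i : ZMod p) with hP
  have hPc : P.card = N0 := by
    rw [hP, card_image_of_injOn, card_range]
    intro a ha b hb hab
    have ha' := mem_range.1 (mem_coe.1 ha)
    have hb' := mem_range.1 (mem_coe.1 hb)
    simp only at hab
    rwa [ZMod.natCast_eq_natCast_iff', Nat.mod_eq_of_lt (by omega), Nat.mod_eq_of_lt (by omega)] at hab
  have hPn : P.Nonempty := by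
    rw [← card_pos, hPc]; exact hN00
  have hPP : ((P + P).card : ℝ) ≤ 2 * P.card := by
    have h1 : P + P ⊆ (range (2 * N0)).image fun i : ℕ => (i : ZMod p) := by
      intro x hx
      rw [mem_add] at hx
      obtain ⟨a, ha, b, hb, rfl⟩ := hx
      rw [hP, mem_image] at ha hb
      obtain ⟨i, hi, rfl⟩ := ha
      obtain ⟨j, hj, rfl⟩ := hb
      rw [mem_image]
      refine ⟨i + j, ?_, by push_cast; rfl⟩
      rw [mem_range] at hi hj ⊢
      omega
    have h2 : (P + P).card ≤ 2 * N0 := (card_le_card h1).trans (card_image_le.trans (card_range _).le)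
    rw [hPc]
    exact_mod_cast h2
  have hps : p ≤ P.card ^ s := by
    rw [hPc]
    have h1 : (p : ℝ) ≤ (N0 : ℝ) ^ s := by
      calc (p : ℝ) = (p : ℝ) ^ (1 : ℝ) := (Real.rpow_one _).symm
        _ ≤ (p : ℝ) ^ (ε * s) := Real.rpow_le_rpow_of_exponent_le hp1 hs1
        _ = ((p : ℝ) ^ ε) ^ s := by rw [Real.rpow_mul hpp.le, Real.rpow_natCast]
        _ ≤ (N0 : ℝ) ^ s := pow_le_pow_left₀ (by positivity) hN0l s
    exact_mod_cast h1
  have hK : 0 < (p : ℝ) ^ (2 * τ) := by positivity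
  obtain ⟨E, hE, hmain⟩ := part1 s p hp P hPn 2 ((p : ℝ) ^ (2 * τ)) hPP hps hK
  refine ⟨E, ?_, ?_⟩
  · refine hE.trans ?_
    rw [hPc]
    have h1 : ((p : ℝ) ^ (2 * τ)) ^ (2 * (s + 1)) = (p : ℝ) ^ (η / 2) := by
      rw [← Real.rpow_natCast, ← Real.rpow_mul hpp.le]
      congr 1
      rw [hτ]
      push_cast
      field_simp
      ring
    rw [h1]
    have hN0r : (0 : ℝ) < N0 := by exact_mod_cast hN00
    calc ((s + 1 : ℝ) ^ (s + 1) + (s + 1)) * 2 ^ (4 * s + 5) * (p : ℝ) ^ (η / 2) * p / N0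
        = C * (p : ℝ) ^ (η / 2) * p / N0 := by rw [hC]
      _ ≤ (p : ℝ) ^ (η / 2) * (p : ℝ) ^ (η / 2) * p / N0 := by gcongr
      _ ≤ (p : ℝ) ^ (η / 2) * (p : ℝ) ^ (η / 2) * p / (p : ℝ) ^ ε := by gcongr
      _ = (p : ℝ) ^ (1 - ε + η) := by
        rw [← Real.rpow_add hpp, ← Real.rpow_add_one hpp.ne', ← Real.rpow_sub hpp]
        congr 1
        ring
  · intro χ hχ z hz N hN A B hA hB
    have hNN : N0 ≤ N := by
      rw [hN0, Nat.ceil_le]; exact hN
    have hsub : (P.image fun u => u * z) ⊆ (range N).image fun i : ℕ => (i : ZMod p) * z := by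
      intro x hx
      rw [mem_image] at hx
      obtain ⟨u, hu, rfl⟩ := hx
      rw [hP, mem_image] at hu
      obtain ⟨i, hi, rfl⟩ := hu
      rw [mem_image]
      exact ⟨i, mem_range.2 (lt_of_lt_of_le (mem_range.1 hi) hNN), rfl⟩
    have hA' : ((A + P.image fun u => u * z).card : ℝ) ≤ (p : ℝ) ^ τ * A.card := by
      refine le_trans ?_ hA
      exact_mod_cast card_le_card (add_subset_add_left hsub)
    have hB' : ((B + P.image fun u => u * z).card : ℝ) ≤ (p : ℝ) ^ τ * B.card := by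
      refine le_trans ?_ hB
      exact_mod_cast card_le_card (add_subset_add_left hsub)
    have h := hmain χ hχ z hz A B (fun _ => 1) (fun _ => 1)
    simp only [one_mul, norm_one, one_pow, sum_const, nsmul_eq_mul, mul_one] at h
    refine h.trans ?_
    have h1 : ∀ (a c : ℝ), 0 ≤ a → c ≤ (p : ℝ) ^ τ * a → Real.sqrt (c * a) ≤ (p : ℝ) ^ (τ / 2) * a := by
      intro a c ha hc
      apply Real.sqrt_le_iff.2
      refine ⟨by positivity, ?_⟩
      calc c * a ≤ ((p : ℝ) ^ τ * a) * a := mul_le_mul_of_nonneg_right hc ha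
        _ = ((p : ℝ) ^ (τ / 2) * a) ^ 2 := by
          have : (p : ℝ) ^ τ = ((p : ℝ) ^ (τ / 2)) ^ 2 := by
            rw [← Real.rpow_natCast, ← Real.rpow_mul hpp.le]
            congr 1
            push_cast
            ring
          rw [this]
          ring
    have h2 := h1 A.card _ (Nat.cast_nonneg _) hA'
    have h3 := h1 B.card _ (Nat.cast_nonneg _) hB'
    calc ((p : ℝ) ^ (2 * τ))⁻¹ * (Real.sqrt (((A + P.image fun u => u * z).card : ℝ) * A.card) *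
          Real.sqrt (((B + P.image fun u => u * z).card : ℝ) * B.card))
        ≤ ((p : ℝ) ^ (2 * τ))⁻¹ * (((p : ℝ) ^ (τ / 2) * A.card) * ((p : ℝ) ^ (τ / 2) * B.card)) := by gcongr
      _ = (p : ℝ) ^ (-τ) * (A.card * B.card) := by
        rw [← Real.rpow_neg hpp.le]
        have : (p : ℝ) ^ (-(2 * τ)) * ((p : ℝ) ^ (τ / 2) * (p : ℝ) ^ (τ / 2)) = (p : ℝ) ^ (-τ) := by
          rw [← Real.rpow_add hpp, ← Real.rpow_add hpp]
          congr 1
          ring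
        rw [← this]
        ring

end Pool.Agent.K1H93.PX
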