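import Pool.Agent.K1H93.PG.Tr

/-!
# Closed walks with labels in a field: the trace formula and the number of degenerate walks
-/

set_option autoImplicit false

namespace Pool.Agent.K1H93.PX

open Finset Matrix Pool.Agent.K1H93.PG
open scoped ComplexOrder

/-- the labels of the forward steps -/
def fl {F κ : Type} [Add F] (v : κ → F) : (s : ℕ) → κ → Wk κ s → List F
  | 0, _, _ => []
  | s + 1, x, w => (v x + v w.1.1) :: fl v s w.1.2 w.2

/-- the labels of the backward steps -/
def bl {F κ : Type} [Add F] (v : κ → F) : (s : ℕ) → Wk κ s → List F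
  | 0, _ => []
  | s + 1, w => (v w.1.2 + v w.1.1) :: bl v s w.2

theorem length_fl {F κ : Type} [Add F] (v : κ → F) : ∀ (s : ℕ) (x : κ) (w : Wk κ s), (fl v s x w).length = s
  | 0, _, _ => rfl
  | s + 1, x, w => by simp [fl, length_fl v s]

theorem length_bl {F κ : Type} [Add F] (v : κ → F) : ∀ (s : ℕ) (w : Wk κ s), (bl v s w).length = s
  | 0, _ => rfl
  | s + 1, w => by simp [bl, length_bl v s]

/-- the product of the shifted labels -/
def pr {F : Type} [CommRing F] (x : F) (L : List F) : F := (L.map (x + ·)).prod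

/-- the matrix -/
noncomputable def MX {F κ : Type} [CommRing F] (v : κ → F) (h : F → ℂ) (x : F) : Matrix κ κ ℂ :=
  Matrix.of fun a b => h (x + (v a + v b))

section trace

variable {F κ : Type} [CommRing F] [Fintype κ] [DecidableEq κ] (v : κ → F) (h : F → ℂ) (c : F)

theorem pow_apply (h1 : h 1 = 1) (hm : ∀ x y, h (x * y) = h x * h y) (s : ℕ) : ∀ x y : κ,
    ((MX v h c * (MX v h c)ᴴ) ^ s) x y =
      ∑ w : Wk κ s, if lst s x w = y then h (pr c (fl v s x w)) * star (h (pr c (bl v s w))) else 0 := by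
  induction s with
  | zero =>
    intro x y
    have e : ∑ w : Wk κ 0, (if lst 0 x w = y then h (pr c (fl v 0 x w)) * star (h (pr c (bl v 0 w))) else 0) =
        if x = y then (1 : ℂ) else 0 := by
      have e2 : ∑ w : Wk κ 0, (if lst 0 x w = y then h (pr c (fl v 0 x w)) * star (h (pr c (bl v 0 w))) else 0) =
          ∑ w : Unit, (if lst 0 x w = y then h (pr c (fl v 0 x w)) * star (h (pr c (bl v 0 w))) else 0) := rfl
      rw [e2]
      simp [lst, fl, bl, pr, h1]
    rw [e, pow_zero, Matrix.one_apply]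
  | succ s ih =>
    intro x y
    rw [pow_succ', Matrix.mul_apply, sum_Wk]
    have e : ∀ z : κ, (MX v h c * (MX v h c)ᴴ) x z =
        ∑ b : κ, h (c + (v x + v b)) * star (h (c + (v z + v b))) := by
      intro z
      rw [Matrix.mul_apply]
      rfl
    simp only [ih, e]
    rw [Finset.sum_comm (s := univ (α := κ)) (t := univ (α := κ)) (f := fun b z => ∑ w : Wk κ s,
      if lst (s + 1) x ((b, z), w) = y then h (pr c (fl v (s + 1) x ((b, z), w))) *
        star (h (pr c (bl v (s + 1) ((b, z), w)))) else 0)]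
    refine sum_congr rfl fun z _ => ?_
    rw [sum_mul]
    refine sum_congr rfl fun b _ => ?_
    rw [mul_sum]
    refine sum_congr rfl fun w _ => ?_
    have e3 : pr c (fl v (s + 1) x ((b, z), w)) = (c + (v x + v b)) * pr c (fl v s z w) := by
      simp [pr, fl]
    have e4 : pr c (bl v (s + 1) ((b, z), w)) = (c + (v z + v b)) * pr c (bl v s w) := by
      simp [pr, bl]
    rw [e3, e4]
    change _ = if lst s z w = y then h ((c + (v x + v b)) * pr c (fl v s z w)) *
      star (h ((c + (v z + v b)) * pr c (bl v s w))) else 0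
    split_ifs with hy
    · rw [hm, hm, star_mul']
      ring
    · rw [mul_zero]

/-- the start of the closed walk -/
def st {s : ℕ} (w : Wk κ (s + 1)) : κ := lst s w.1.2 w.2

theorem trace_eq (h1 : h 1 = 1) (hm : ∀ x y, h (x * y) = h x * h y) (s : ℕ) :
    Matrix.trace ((MX v h c * (MX v h c)ᴴ) ^ (s + 1)) =
      ∑ w : Wk κ (s + 1), h (pr c (fl v (s + 1) (st w) w)) * star (h (pr c (bl v (s + 1) w))) := by
  unfold Matrix.trace
  simp only [Matrix.diag_apply, pow_apply v h c h1 hm]
  rw [sum_comm]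
  refine sum_congr rfl fun w _ => ?_
  have e : ∀ x : κ, lst (s + 1) x w = lst s w.1.2 w.2 := fun x => rfl
  simp only [e]
  rw [sum_ite_eq]
  simp only [mem_univ, if_true]
  rfl

/-- the bilinear form and the trace -/
theorem form_le (f g : κ → ℂ) (s : ℕ) :
    ‖∑ a, ∑ b, f a * g b * h (c + (v a + v b))‖ ^ (2 * (s + 1)) ≤
      (∑ a, ‖f a‖ ^ 2) ^ (s + 1) * (∑ b, ‖g b‖ ^ 2) ^ (s + 1) *
        ‖Matrix.trace ((MX v h c * (MX v h c)ᴴ) ^ (s + 1))‖ := by
  set u : κ → ℂ := fun b => ∑ a, f a * h (c + (v a + v b)) with hu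
  have e1 : ∑ a, ∑ b, f a * g b * h (c + (v a + v b)) = ∑ b, g b * u b := by
    rw [sum_comm]
    refine sum_congr rfl fun b _ => ?_
    rw [hu, mul_sum]
    exact sum_congr rfl fun a _ => by ring
  have e2 : ‖∑ b, g b * u b‖ ^ 2 ≤ (∑ b, ‖g b‖ ^ 2) * ∑ b, ‖u b‖ ^ 2 := by
    have h3 : ‖∑ b, g b * u b‖ ≤ ∑ b, ‖g b‖ * ‖u b‖ :=
      (norm_sum_le _ _).trans (sum_le_sum fun b _ => (norm_mul _ _).le)
    calc ‖∑ b, g b * u b‖ ^ 2 ≤ (∑ b, ‖g b‖ * ‖u b‖) ^ 2 := pow_le_pow_left₀ (norm_nonneg _) h3 2
      _ ≤ _ := sum_mul_sq_le_sq_mul_sq _ _ _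
  set H : Matrix κ κ ℂ := MX v h c * (MX v h c)ᴴ with hH
  have e3 : ((∑ b, ‖u b‖ ^ 2 : ℝ) : ℂ) = star (star f) ⬝ᵥ (H *ᵥ (star f)) := by
    rw [hH, ← Matrix.mulVec_mulVec, Matrix.dotProduct_mulVec]
    have e4 : (MX v h c)ᴴ *ᵥ star f = star u := by
      funext b
      rw [Matrix.mulVec, dotProduct, Pi.star_apply, hu]
      simp only [Matrix.conjTranspose_apply, MX, Matrix.of_apply, Pi.star_apply]
      rw [star_sum]
      exact sum_congr rfl fun a _ => by rw [star_mul']; ring
    have e5 : star (star f) ᵥ* MX v h c = u := by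
      funext b
      rw [star_star, Matrix.vecMul, dotProduct, hu]
      rfl
    rw [e4, e5, dotProduct]
    push_cast
    refine sum_congr rfl fun b _ => ?_
    rw [Pi.star_apply, ← Complex.mul_conj']
    rfl
  have e6 : ∑ b, ‖u b‖ ^ 2 = ‖star (star f) ⬝ᵥ (H *ᵥ (star f))‖ := by
    rw [← e3, Complex.norm_real, Real.norm_of_nonneg (sum_nonneg fun b _ => by positivity)]
  have e7 := quad_pow H (Matrix.posSemidef_self_mul_conjTranspose _) (star f) (s + 1) (by omega)
  rw [← e6] at e7
  have e8 : ∑ i, ‖(star f) i‖ ^ 2 = ∑ i, ‖f i‖ ^ 2 := sum_congr rfl fun i _ => by rw [Pi.star_apply, norm_star]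
  rw [e8] at e7
  rw [e1, pow_mul]
  calc (‖∑ b, g b * u b‖ ^ 2) ^ (s + 1) ≤ ((∑ b, ‖g b‖ ^ 2) * ∑ b, ‖u b‖ ^ 2) ^ (s + 1) :=
        pow_le_pow_left₀ (by positivity) e2 _
    _ = (∑ b, ‖g b‖ ^ 2) ^ (s + 1) * (∑ b, ‖u b‖ ^ 2) ^ (s + 1) := mul_pow _ _ _
    _ ≤ (∑ b, ‖g b‖ ^ 2) ^ (s + 1) * ((∑ i, ‖f i‖ ^ 2) ^ (s + 1) *
        ‖Matrix.trace (H ^ (s + 1))‖) := mul_le_mul_of_nonneg_left e7 (by positivity)
    _ = _ := by ring

/-- the trace is a nonnegative real number -/
theorem trace_real (s : ℕ) : Matrix.trace ((MX v h c * (MX v h c)ᴴ) ^ s) =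
    ((‖Matrix.trace ((MX v h c * (MX v h c)ᴴ) ^ s)‖ : ℝ) : ℂ) := by
  have hp : ((MX v h c * (MX v h c)ᴴ) ^ s).PosSemidef :=
    (Matrix.posSemidef_self_mul_conjTranspose _).pow s
  have h0 := hp.trace_nonneg
  exact (Complex.eq_coe_norm_of_nonneg h0)

end trace

section count

variable {F κ : Type} [Field F] [DecidableEq F] [Fintype κ] [DecidableEq κ] (v : κ → F)

theorem cnt (hv : Function.Injective v) (S : Finset F) : ∀ (t : ℕ) (a : κ) (L : List F),
    (univ.filter fun w : Wk κ t => fl v t a w = L ∧ ∀ l ∈ bl v t w, l ∈ S).card ≤ S.card ^ t := by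
  classical
  intro t
  induction t with
  | zero =>
    intro a L
    refine (card_le_univ _).trans ?_
    rw [pow_zero]
    exact (Fintype.card_unit).le
  | succ t ih =>
    intro a L
    rw [pow_succ]
    refine Finset.card_le_mul_card_image_of_maps_to (f := fun w : Wk κ (t + 1) => v w.1.2 + v w.1.1) (t := S) ?_
      (S.card ^ t) ?_
    · intro w hw
      rw [mem_filter] at hw
      exact hw.2.2 _ (by simp [bl])
    · intro l hl
      rcases Finset.eq_empty_or_nonempty
        ((univ.filter fun w : Wk κ (t + 1) => fl v (t + 1) a w = L ∧ ∀ l ∈ bl v (t + 1) w, l ∈ S).filter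
          fun w : Wk κ (t + 1) => v w.1.2 + v w.1.1 = l) with h0 | ⟨w0, h0⟩
      · rw [h0]; simp
      · rw [mem_filter, mem_filter] at h0
        obtain ⟨⟨-, h01, h02⟩, h03⟩ := h0
        have key : ∀ w : Wk κ (t + 1), fl v (t + 1) a w = L → v w.1.2 + v w.1.1 = l → w.1 = w0.1 := by
          intro w hw1 hw2
          have e1 : v a + v w.1.1 = v a + v w0.1.1 := by
            have := hw1.trans h01.symm
            simp only [fl, List.cons.injEq] at this
            exact this.1
          have e2 : w.1.1 = w0.1.1 := hv (add_left_cancel e1)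
          have e3 : v w.1.2 = v w0.1.2 := by
            have := hw2.trans h03.symm
            rw [e2] at this
            exact add_right_cancel this
          exact Prod.ext e2 (hv e3)
        refine le_trans (Finset.card_le_card_of_injOn (fun w : Wk κ (t + 1) => w.2) ?_ ?_) (ih w0.1.2 L.tail)
        · intro w hw
          rw [mem_coe, mem_filter, mem_filter] at hw
          obtain ⟨⟨-, hw1, hw2⟩, hw3⟩ := hw
          have e := key w hw1 hw3
          rw [mem_coe, mem_filter]
          refine ⟨mem_univ _, ?_, fun l' hl' => hw2 l' ?_⟩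
          · rw [← hw1, ← e]; rfl
          · exact List.mem_cons_of_mem _ hl'
        · intro w hw w' hw' he
          rw [mem_coe, mem_filter, mem_filter] at hw hw'
          exact Prod.ext ((key w hw.1.2.1 hw.2).trans (key w' hw'.1.2.1 hw'.2).symm) he

/-- the lists with entries in `T` -/
def TL (T : Finset F) : ℕ → Finset (List F)
  | 0 => {[]}
  | t + 1 => (T ×ˢ TL T t).image fun q => q.1 :: q.2

theorem card_TL (T : Finset F) : ∀ t, (TL T t).card ≤ T.card ^ t
  | 0 => by simp [TL]
  | t + 1 => by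
    rw [TL, pow_succ']
    refine card_image_le.trans ?_
    rw [card_product]
    exact Nat.mul_le_mul le_rfl (card_TL T t)

theorem fl_mem (T : Finset F) (hT : ∀ a b, v a + v b ∈ T) : ∀ (t : ℕ) (a : κ) (w : Wk κ t), fl v t a w ∈ TL T t
  | 0, _, _ => by simp [TL, fl]
  | t + 1, a, w => by
    rw [TL, mem_image]
    exact ⟨(v a + v w.1.1, fl v t w.1.2 w.2), mem_product.2 ⟨hT _ _, fl_mem T hT t _ _⟩, rfl⟩

/-- the number of the degenerate closed walks -/
theorem card_bad (hv : Function.Injective v) (T : Finset F) (hT : ∀ a b, v a + v b ∈ T) (s : ℕ) :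
    (univ.filter fun w : Wk κ (s + 1) => ∀ l ∈ bl v (s + 1) w, l ∈ fl v (s + 1) (st w) w).card ≤
      (s + 1) ^ (s + 1) * (Fintype.card κ * T.card ^ (s + 1)) := by
  classical
  refine le_trans (Finset.card_le_mul_card_image_of_maps_to
    (f := fun w : Wk κ (s + 1) => ((st w, fl v (s + 1) (st w) w) : κ × List F))
    (t := (univ : Finset κ) ×ˢ TL T (s + 1)) ?_ ((s + 1) ^ (s + 1)) ?_) ?_
  · intro w _
    exact mem_product.2 ⟨mem_univ _, fl_mem v T hT _ _ _⟩
  · rintro ⟨a, L⟩ -
    rcases Finset.eq_empty_or_nonempty ((univ.filter fun w : Wk κ (s + 1) =>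
      ∀ l ∈ bl v (s + 1) w, l ∈ fl v (s + 1) (st w) w).filter
        fun w => ((st w, fl v (s + 1) (st w) w) : κ × List F) = (a, L)) with h0 | ⟨w0, h0⟩
    · rw [h0]; simp
    · rw [mem_filter] at h0
      have hL : L.length = s + 1 := by
        have := (Prod.ext_iff.1 h0.2).2
        simp only at this
        rw [← this, length_fl]
      have hcard : L.toFinset.card ≤ s + 1 := by
        rw [← hL]; exact L.toFinset_card_le
      refine le_trans ?_ ((cnt v hv L.toFinset (s + 1) a L).trans (Nat.pow_le_pow_left hcard _))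
      refine card_le_card fun w hw => ?_
      rw [mem_filter, mem_filter] at hw
      obtain ⟨⟨-, h1⟩, h2⟩ := hw
      have h3 := (Prod.ext_iff.1 h2).1
      have h4 := (Prod.ext_iff.1 h2).2
      simp only at h3 h4
      rw [mem_filter]
      refine ⟨mem_univ _, by rw [← h3]; exact h4, fun l hl => ?_⟩
      rw [List.mem_toFinset, ← h4]
      exact h1 l hl
  · rw [card_product, card_univ]
    exact Nat.mul_le_mul le_rfl (Nat.mul_le_mul le_rfl (card_TL T _))

end count

section roots

open Polynomial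

variable {F : Type} [Field F] [DecidableEq F] [Fintype F]

/-- the polynomial with the values `pr x L` -/
noncomputable def pl (L : List F) : F[X] := (L.map fun l => X + C l).prod

theorem eval_pl (x : F) (L : List F) : (pl L).eval x = pr x L := by
  unfold pl pr
  induction L with
  | nil => simp
  | cons l L ih => simp [ih]

theorem deg_pl (L : List F) : (pl L).natDegree ≤ L.length := by
  unfold pl
  induction L with
  | nil => simp
  | cons l L ih =>
    rw [List.map_cons, List.prod_cons, List.length_cons]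
    refine natDegree_mul_le.trans ?_
    rw [natDegree_X_add_C]
    omega

theorem roots_le (L L' : List F) (t : ℕ) (h1 : L.length ≤ t) (h2 : L'.length ≤ t)
    (h : ¬ ∀ l ∈ L', l ∈ L) : (univ.filter fun x : F => pr x L = pr x L').card ≤ t := by
  by_contra hc
  push Not at hc
  apply h
  have h0 : pl L - pl L' = 0 := by
    apply Polynomial.eq_zero_of_natDegree_lt_card_of_eval_eq_zero' _ (univ.filter fun x : F => pr x L = pr x L')
    · intro x hx
      rw [mem_filter] at hx
      rw [eval_sub, eval_pl, eval_pl, hx.2, sub_self]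
    · refine lt_of_le_of_lt ((natDegree_sub_le _ _).trans (max_le ((deg_pl L).trans h1) ((deg_pl L').trans h2))) hc
  intro l hl
  have h3 : pr (-l) L = pr (-l) L' := by
    rw [← eval_pl, ← eval_pl, sub_eq_zero.1 h0]
  have h4 : pr (-l) L' = 0 := by
    unfold pr
    apply List.prod_eq_zero
    rw [List.mem_map]
    exact ⟨l, hl, neg_add_cancel l⟩
  rw [h4] at h3
  unfold pr at h3
  rw [List.prod_eq_zero_iff, List.mem_map] at h3
  obtain ⟨l', hl', h5⟩ := h3
  have : l' = l := by
    have := neg_add_eq_zero.1 h5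
    exact this.symm
  rwa [← this]

end roots

end Pool.Agent.K1H93.PX
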